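import Pool.Agent.Q15.PA.Stm

/-!
# Project PA (helper15): transport by a linear isomorphism
-/

set_option autoImplicit false

open MeasureTheory

namespace Pool.Agent.Q153.PA

open Pool.Agent.Q15.PA

/-- the linear homeomorphism -/
theorem exists_equiv {d : ℕ} {U : Matrix (Fin d) (Fin d) ℝ} (hU : IsUnit U.det) :
    ∃ e : V d ≃L[ℝ] V d, ∀ x, e x = U.mulVec x := by
  refine ⟨(Matrix.toLinearEquiv' U (Matrix.invertibleOfIsUnitDet U hU)).toContinuousLinearEquiv, fun x => ?_⟩
  rfl

theorem box_image {d : ℕ} (U : Matrix (Fin d) (Fin d) ℝ) {a b : V d} (h : ∀ i, a i < b i) :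
    (fun x => U.mulVec x) '' Set.Icc a b =
      (fun x => (U * Matrix.diagonal (fun i => b i - a i)).mulVec x + U.mulVec a) '' Set.Icc 0 1 := by
  have h0 : ∀ i, 0 < b i - a i := fun i => sub_pos.2 (h i)
  have key : ∀ t : V d, (U * Matrix.diagonal (fun i => b i - a i)).mulVec t + U.mulVec a =
      U.mulVec (fun i => (b i - a i) * t i + a i) := by
    intro t
    rw [← Matrix.mulVec_mulVec, ← Matrix.mulVec_add]
    congr 1
    funext i
    rw [Pi.add_apply, Matrix.mulVec_diagonal]
  ext y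
  simp only [Set.mem_image]
  constructor
  · rintro ⟨x, ⟨hx1, hx2⟩, rfl⟩
    refine ⟨fun i => (x i - a i) / (b i - a i), ⟨fun i => ?_, fun i => ?_⟩, ?_⟩
    · exact div_nonneg (sub_nonneg.2 (hx1 i)) (h0 i).le
    · show (x i - a i) / (b i - a i) ≤ 1
      rw [div_le_one (h0 i)]
      exact sub_le_sub_right (hx2 i) _
    · rw [key]
      congr 1
      funext i
      rw [mul_div_cancel₀ _ (h0 i).ne']
      ring
  · rintro ⟨t, ⟨ht1, ht2⟩, rfl⟩
    refine ⟨fun i => (b i - a i) * t i + a i, ⟨fun i => ?_, fun i => ?_⟩, ?_⟩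
    · have h1 : 0 ≤ t i := ht1 i
      show a i ≤ (b i - a i) * t i + a i
      nlinarith [h0 i, mul_nonneg (h0 i).le h1]
    · have h1 : t i ≤ 1 := ht2 i
      show (b i - a i) * t i + a i ≤ b i
      nlinarith [h0 i, mul_le_mul_of_nonneg_left h1 (h0 i).le]
    · rw [key]

theorem t_TR : S_TR := by
  intro d U G G' hU hG
  obtain ⟨e, he⟩ := exists_equiv hU
  have hfun : (fun x => U.mulVec x) = e := by
    funext x
    rw [he]
  rw [hfun] at hG
  have hG2 : G = e.toHomeomorph '' G' := hG
  refine ⟨?_, ?_, ?_, ?_, ?_⟩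
  · rw [hG2]
    exact e.toHomeomorph.isCompact_image.1
  · intro h
    rw [hG2, ← e.toHomeomorph.image_interior, ← e.toHomeomorph.image_closure] at h
    exact e.toHomeomorph.injective.image_injective h
  · rw [hG2, ← e.toHomeomorph.image_interior]
    exact e.toHomeomorph.isConnected_image.1
  · intro h h0
    apply h
    have h1 : G = (e : V d →ₗ[ℝ] V d) '' G' := hG
    rw [h1, Measure.addHaar_image_linearMap, h0, mul_zero]
  · intro a b hab hbox
    refine ⟨U * Matrix.diagonal (fun i => b i - a i), U.mulVec a, ?_, ?_⟩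
    · rw [Matrix.det_mul, Matrix.det_diagonal]
      refine hU.mul (isUnit_iff_ne_zero.2 ?_)
      exact Finset.prod_ne_zero_iff.2 fun i _ => (sub_pos.2 (hab i)).ne'
    · rw [← box_image U hab, hG, hbox, hfun]

end Pool.Agent.Q153.PA
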